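import Pool.Agent.H98.AO.BStmts

/-!
Module ALF of project AO: alephs in models of ZFC.
-/

set_option linter.unusedVariables false
set_option linter.unusedSectionVars false
set_option synthInstance.maxSize 100000

namespace AO

open SW

namespace L83

section
variable {M : Type} [SetStr M] [ZF M]

/-- covering from a class relation -/
theorem img_rel {z a : M} {R : M → M → Prop} (hR : Cl2 R)
    (h1 : ∀ y, E y a → ∃ x, E x z ∧ R y x)
    (h2 : ∀ y y' x, E y a → E y' a → E x z → R y x → R y' x → y = y') : Img z a := by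
  have hC : Cl (fun t : M => ∃ x y : M, t = opair x y ∧ R y x) := inferInstance
  have key : ∀ x y, E (opair x y) (sep (prod z a) (fun t => ∃ x y : M, t = opair x y ∧ R y x)) ↔
      (E x z ∧ E y a) ∧ R y x := by
    intro x y
    rw [mem_sep' hC, mem_prod]
    refine and_congr_right fun _ => ?_
    constructor
    · rintro ⟨x', y', h, hr⟩
      rw [opair_inj] at h
      rw [h.1, h.2]
      exact hr
    · intro h
      exact ⟨x, y, rfl, h⟩
  refine ⟨sep (prod z a) (fun t => ∃ x y : M, t = opair x y ∧ R y x), fun y hy => ?_⟩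
  obtain ⟨x, hx, hr⟩ := h1 y hy
  refine ⟨x, hx, ?_⟩
  unfold app
  symm
  apply the_eq (p := fun w => E (opair x w)
    (sep (prod z a) (fun t => ∃ x y : M, t = opair x y ∧ R y x))) ((key x y).2 ⟨⟨hx, hy⟩, hr⟩)
  intro y' hy'
  obtain ⟨⟨_, hy'⟩, hr'⟩ := (key x y').1 hy'
  exact h2 y' y x hy' hy hx hr' hr

theorem img_refl (a : M) : Img a a :=
  img_rel (R := fun y x => y = x) inferInstance (fun y hy => ⟨y, hy, rfl⟩)
    (fun y y' x _ _ _ h h' => by rw [h, h'])

theorem img_sub {z a b : M} (h : Img z a) (hb : Sub b a) : Img z b := by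
  obtain ⟨f, hf⟩ := h
  exact ⟨f, fun y hy => hf y (hb y hy)⟩

theorem img_mono {z z' a : M} (h : Img z a) (hz : Sub z z') : Img z' a := by
  obtain ⟨f, hf⟩ := h
  exact ⟨f, fun y hy => by obtain ⟨x, hx, e⟩ := hf y hy; exact ⟨x, hz x hx, e⟩⟩

theorem img_trans {z a b : M} (h : Img z a) (h' : Img a b) : Img z b := by
  obtain ⟨f, hf⟩ := h
  obtain ⟨g, hg⟩ := h'
  refine img_rel (R := fun y x => y = app g (app f x)) inferInstance ?_ ?_
  · intro y hy
    obtain ⟨x, hx, rfl⟩ := hg y hy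
    obtain ⟨t, ht, rfl⟩ := hf x hx
    exact ⟨t, ht, rfl⟩
  · intro y y' x _ _ _ h h'
    rw [h, h']

theorem img_om_iff (x : M) : Img om x ↔ Cb x := by
  constructor
  · rintro ⟨f, hf⟩
    have hC : Cl (fun t : M => ∃ y n : M, t = opair y n ∧ y = app f n) := inferInstance
    have key : ∀ y n, E (opair y n) (sep (prod x om) (fun t => ∃ y n : M, t = opair y n ∧
        y = app f n)) ↔ (E y x ∧ E n om) ∧ y = app f n := by
      intro y n
      rw [mem_sep' hC, mem_prod]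
      refine and_congr_right fun _ => ?_
      constructor
      · rintro ⟨x', y', h, hr⟩
        rw [opair_inj] at h
        rw [h.1, h.2]
        exact hr
      · intro h
        exact ⟨y, n, rfl, h⟩
    refine ⟨sep (prod x om) (fun t => ∃ y n : M, t = opair y n ∧ y = app f n),
      fun y hy => ?_, fun y y' n hy hy' hn h h' => ?_⟩
    · obtain ⟨n, hn, e⟩ := hf y hy
      exact ⟨n, hn, (key y n).2 ⟨⟨hy, hn⟩, e⟩⟩
    · rw [((key y n).1 h).2, ((key y' n).1 h').2]
  · rintro ⟨f, h1, h2⟩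
    refine img_rel (R := fun y n => E (opair y n) f) inferInstance h1 ?_
    intro y y' n hy hy' hn h h'
    exact h2 y y' n hy hy' hn h h'

/-- infinite ordinals absorb one more element -/
theorem img_suc {v a : M} (hv : Sub om v) (h : Img v a) : Img v (suc a) := by
  obtain ⟨f, hf⟩ := h
  refine img_rel (R := fun y x => (y ≠ a ∧ ∃ x0 : M, E x0 v ∧ y = app f x0 ∧
    ((E x0 om ∧ x = suc x0) ∨ (¬ E x0 om ∧ x = x0))) ∨ (y = a ∧ x = emp)) inferInstance ?_ ?_
  · intro y hy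
    by_cases hya : y = a
    · exact ⟨emp, hv _ emp_mem_om, Or.inr ⟨hya, rfl⟩⟩
    · rw [mem_suc] at hy
      obtain ⟨x0, hx0, e⟩ := hf y (hy.resolve_right hya)
      by_cases h0 : E x0 om
      · exact ⟨suc x0, hv _ (suc_mem_om h0), Or.inl ⟨hya, x0, hx0, e, Or.inl ⟨h0, rfl⟩⟩⟩
      · exact ⟨x0, hx0, Or.inl ⟨hya, x0, hx0, e, Or.inr ⟨h0, rfl⟩⟩⟩
  · rintro y y' x hy hy' hx (⟨h1, x0, h2, h3, h4⟩ | ⟨h1, h2⟩) (⟨h1', x0', h2', h3', h4'⟩ | ⟨h1', h2'⟩)
    · rcases h4 with ⟨h4, h5⟩ | ⟨h4, h5⟩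
      · rcases h4' with ⟨h4', h5'⟩ | ⟨h4', h5'⟩
        · have := suc_inj (h5.symm.trans h5')
          rw [h3, h3', this]
        · exact absurd (h5' ▸ h5.symm ▸ suc_mem_om h4) h4'
      · rcases h4' with ⟨h4', h5'⟩ | ⟨h4', h5'⟩
        · exact absurd (h5 ▸ h5'.symm ▸ suc_mem_om h4') h4
        · rw [h3, h3', ← h5, ← h5']
    · exfalso
      rcases h4 with ⟨h4, h5⟩ | ⟨h4, h5⟩
      · exact suc_ne_emp x0 (h5.symm.trans h2')
      · exact h4 (by rw [← h5, h2']; exact emp_mem_om)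
    · exfalso
      rcases h4' with ⟨h4, h5⟩ | ⟨h4, h5⟩
      · exact suc_ne_emp x0' (h5.symm.trans h2)
      · exact h4 (by rw [← h5, h2]; exact emp_mem_om)
    · rw [h1, h1']

theorem alf_zero {w : M} : Alf 0 w ↔ w = om := Iff.rfl

theorem alf_succ {n : ℕ} {w : M} : Alf (n + 1) w ↔
    Ord w ∧ ∃ v, Alf n v ∧ ¬ Img v w ∧ ∀ a, E a w → Img v a := Iff.rfl

theorem alf_ord {n : ℕ} {w : M} (h : Alf n w) : Ord w := by
  cases n with
  | zero => rw [alf_zero] at h; rw [h]; exact Ord_om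
  | succ n => exact h.1

theorem alf_uniq : ∀ (n : ℕ) (v w : M), Alf n v → Alf n w → v = w
  | 0, v, w, hv, hw => by rw [alf_zero] at hv hw; rw [hv, hw]
  | n + 1, v, w, hv, hw => by
      obtain ⟨ov, u, hu, h1, h2⟩ := hv
      obtain ⟨ow, u', hu', h1', h2'⟩ := hw
      have := alf_uniq n u u' hu hu'
      subst this
      rcases ov.tri ow with h | h | h
      · exact absurd (h2' v h) h1
      · exact h
      · exact absurd (h2 w h) h1'

/-- the next aleph is above the previous one -/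
theorem alf_step {n : ℕ} {v w : M} (hv : Alf n v) (hw : Alf (n + 1) w) : E v w := by
  obtain ⟨ow, u, hu, h1, h2⟩ := hw
  have := alf_uniq n u v hu hv
  subst this
  rcases (alf_ord hv).tri ow with h | h | h
  · exact h
  · exact absurd (h ▸ img_refl u) h1
  · exact absurd (img_sub (img_refl u) ((alf_ord hv).sub_of_mem h)) h1

theorem alf_om : ∀ (n : ℕ) (w : M), Alf n w → Sub om w
  | 0, w, hw => by rw [alf_zero] at hw; rw [hw]; exact Sub.refl _
  | n + 1, w, hw => by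
      obtain ⟨u, hu⟩ : ∃ u, Alf n u := ⟨_, hw.2.choose_spec.1⟩
      exact (alf_om n u hu).trans (hw.1.sub_of_mem (alf_step hu hw))

theorem alf_lt {m : ℕ} : ∀ (n : ℕ) (v w : M), m < n → Alf m v → Alf n w → E v w
  | 0, v, w, h, _, _ => absurd h (Nat.not_lt_zero m)
  | n + 1, v, w, h, hv, hw => by
      obtain ⟨u, hu⟩ : ∃ u, Alf n u := ⟨_, hw.2.choose_spec.1⟩
      rcases Nat.lt_succ_iff_lt_or_eq.1 h with h1 | h1
      · exact hw.1.trans (alf_step hu hw) (alf_lt n v u h1 hv hu)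
      · subst h1
        exact alf_step hv hw

theorem alf_suc {n : ℕ} {w a : M} (hw : Alf n w) (ha : E a w) : E (SW.suc a) w := by
  cases n with
  | zero => rw [alf_zero] at hw; subst hw; exact suc_mem_om ha
  | succ n =>
      obtain ⟨ow, u, hu, h1, h2⟩ := hw
      rcases (Ord_suc (ow.mem ha)).tri ow with h | h | h
      · exact h
      · exact absurd (h ▸ img_suc (alf_om n u hu) (h2 a ha)) h1
      · rw [mem_suc] at h
        rcases h with h | h
        · exact (not_mem_cycle h ha).elim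
        · rw [h] at ha
          exact (not_mem_self _ ha).elim

/-- there is an ordinal which is not covered by a given one -/
theorem hart_img {v : M} (hv : Ord v) : ∃ a, Ord a ∧ ¬ Img v a := by
  obtain ⟨a, ha, hno⟩ := hartF (M := M) v
  refine ⟨a, ha, ?_⟩
  rintro ⟨f, h1⟩
  apply hno
  have hmem : ∀ y n : M, E (opair y n) (sep (prod a v) (fun z : M => ∃ y n : M,
      z = opair y n ∧ y = app f n ∧ ∀ m : M, E m n → y ≠ app f m)) ↔
      E y a ∧ E n v ∧ y = app f n ∧ ∀ m : M, E m n → y ≠ app f m := by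
    intro y n
    rw [mem_sep' inferInstance, mem_prod]
    constructor
    · rintro ⟨⟨hy, hn⟩, y', n', he, h3, h4⟩
      rw [opair_inj] at he
      obtain ⟨rfl, rfl⟩ := he
      exact ⟨hy, hn, h3, h4⟩
    · rintro ⟨hy, hn, h3, h4⟩
      exact ⟨⟨hy, hn⟩, y, n, rfl, h3, h4⟩
  refine ⟨sep (prod a v) (fun z : M => ∃ y n : M,
      z = opair y n ∧ y = app f n ∧ ∀ m : M, E m n → y ≠ app f m), ?_, ?_, ?_⟩
  · intro b hb
    obtain ⟨n0, hn0, hbn0⟩ := h1 b hb
    obtain ⟨n, ⟨hn, hbn⟩, hmin⟩ := mem_min (C := fun n : M => E n v ∧ b = app f n)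
      inferInstance ⟨n0, hn0, hbn0⟩
    exact ⟨n, hn, (hmem b n).2 ⟨hb, hn, hbn, fun m hm hbm => hmin m hm ⟨hv.1 n hn m hm, hbm⟩⟩⟩
  · intro b y y' hb hy hy'
    obtain ⟨_, hy1, hy2, hy3⟩ := (hmem b y).1 hy
    obtain ⟨_, hy1', hy2', hy3'⟩ := (hmem b y').1 hy'
    rcases (hv.mem hy1).tri (hv.mem hy1') with h | h | h
    · exact absurd hy2 (hy3' y h)
    · exact h
    · exact absurd hy2' (hy3 y' h)
  · intro b b' y hb hb' hy hy'
    obtain ⟨_, hy1, hy2, _⟩ := (hmem b y).1 hy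
    obtain ⟨_, _, hy2', _⟩ := (hmem b' y).1 hy'
    rw [hy2, hy2']

theorem alf_ex : ∀ n : ℕ, ∃ w : M, Alf n w
  | 0 => ⟨om, rfl⟩
  | n + 1 => by
      obtain ⟨v, hv⟩ := alf_ex n
      obtain ⟨a, ha, hn⟩ := hart_img (alf_ord hv)
      obtain ⟨w, hw, hw1, hw2, _⟩ := ord_min (C := fun x : M => ¬ Img v x) inferInstance ha hn
      exact ⟨w, hw, v, hv, hw1, fun c hc => not_not.1 (hw2 c hc)⟩

end

end L83

open L83

/-- ALF -/
theorem alf : ALFStmt := by
  intro M _ _
  refine ⟨alf_ex, alf_uniq, fun n w h => alf_ord h, fun n w a h ha => alf_suc h ha, alf_om,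
    fun m n v w h => alf_lt n v w h, fun w => ?_, ?_⟩
  · constructor
    · rintro ⟨ow, v, hv, h1, h2⟩
      rw [alf_zero] at hv
      subst hv
      refine ⟨ow, fun h => h1 ((img_om_iff w).2 h), fun a ha => (img_om_iff a).1 (h2 a ha)⟩
    · rintro ⟨ow, h1, h2⟩
      exact ⟨ow, om, rfl, fun h => h1 ((img_om_iff w).1 h), fun a ha => (img_om_iff a).2 (h2 a ha)⟩
  · rintro n w a ⟨ow, v, hv, h1, h2⟩ ha
    exact ⟨v, hv, h2 a ha⟩

end AO
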