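import Pool.Agent.H83.AO.ALF
import Pool.Agent.H93.MA.CBT
import Pool.Agent.H35.MA.ACF

/-!
Module SZF of project AO: sets of size at most aleph `n` in models of ZFC.
-/

set_option linter.unusedVariables false
set_option linter.unusedSectionVars false
set_option synthInstance.maxSize 100000

namespace AO

open SW

namespace L83

section
variable {M : Type} [SetStr M] [ZF M]

theorem sz_of_img {n : ℕ} {a b : M} (h : Sz n a) (hab : Img a b) : Sz n b := by
  obtain ⟨w, hw, h⟩ := h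
  exact ⟨w, hw, img_trans h hab⟩

theorem img_prod {w w' x y : M} (hx : Img w x) (hy : Img w' y) :
    Img (SW.prod w w') (SW.prod x y) := by
  obtain ⟨f, hf⟩ := hx
  obtain ⟨g, hg⟩ := hy
  refine img_rel (R := fun z t => ∃ a b : M, t = opair a b ∧ z = opair (app f a) (app g b))
    inferInstance ?_ ?_
  · intro z hz
    obtain ⟨u, v, hu, hv, rfl⟩ := mem_prod'.1 hz
    obtain ⟨a, ha, rfl⟩ := hf u hu
    obtain ⟨b, hb, rfl⟩ := hg v hv
    exact ⟨opair a b, mem_prod.2 ⟨ha, hb⟩, a, b, rfl, rfl⟩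
  · rintro z z' t _ _ _ ⟨a, b, rfl, rfl⟩ ⟨a', b', h, rfl⟩
    rw [opair_inj] at h
    rw [h.1, h.2]

theorem img_bun {w x y : M} (hw : Sub om w) (hx : Img w x) (hy : Img w y) :
    Img (SW.prod w w) (SW.bun x y) := by
  obtain ⟨f, hf⟩ := hx
  obtain ⟨g, hg⟩ := hy
  refine img_rel (R := fun z t => (∃ b : M, t = opair emp b ∧ z = app f b) ∨
    ∃ b : M, t = opair (suc emp) b ∧ z = app g b) inferInstance ?_ ?_
  · intro z hz
    rw [mem_bun] at hz
    rcases hz with hz | hz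
    · obtain ⟨b, hb, e⟩ := hf z hz
      exact ⟨opair emp b, mem_prod.2 ⟨hw _ emp_mem_om, hb⟩, Or.inl ⟨b, rfl, e⟩⟩
    · obtain ⟨b, hb, e⟩ := hg z hz
      exact ⟨opair (suc emp) b, mem_prod.2 ⟨hw _ (suc_mem_om emp_mem_om), hb⟩, Or.inr ⟨b, rfl, e⟩⟩
  · rintro z z' t _ _ _ (⟨b, rfl, rfl⟩ | ⟨b, rfl, rfl⟩) (⟨b', h, rfl⟩ | ⟨b', h, rfl⟩)
    · rw [opair_inj] at h
      rw [h.2]
    · rw [opair_inj] at h
      exact absurd h.1.symm (suc_ne_emp _)
    · rw [opair_inj] at h
      exact absurd h.1 (suc_ne_emp _)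
    · rw [opair_inj] at h
      rw [h.2]

/-- `g` covers `y` -/
def Cov (w y g : M) : Prop := ∀ z, E z y → ∃ a, E a w ∧ z = app g a

theorem Cov_df : Cl3 (fun w y g : M => Cov w y g) := by unfold Cov; infer_instance

instance {n : ℕ} {t s u : (Fin n → M) → M} [ht : DfT t] [hs : DfT s] [hu : DfT u] :
    Df (fun v => Cov (t v) (s v) (u v)) := Cov_df.comp3 ht hs hu

/-- a covering function which is a subset of the product -/
theorem cov_ex {w y : M} (h : Img w y) : ∃ g, Sub g (SW.prod w y) ∧ Cov w y g := by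
  obtain ⟨f, hf⟩ := h
  have hC : Cl (fun t : M => ∃ a b : M, t = opair a b ∧ b = app f a) := inferInstance
  have key : ∀ a b, E (opair a b) (sep (SW.prod w y) (fun t => ∃ a b : M, t = opair a b ∧
      b = app f a)) ↔ (E a w ∧ E b y) ∧ b = app f a := by
    intro a b
    rw [mem_sep' hC, mem_prod]
    refine and_congr_right fun _ => ?_
    constructor
    · rintro ⟨x', y', h, hr⟩
      rw [opair_inj] at h
      rw [h.1, h.2]
      exact hr
    · intro h
      exact ⟨a, b, rfl, h⟩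
  refine ⟨sep (SW.prod w y) (fun t => ∃ a b : M, t = opair a b ∧ b = app f a), fun z hz => ?_,
    fun z hz => ?_⟩
  · rw [mem_sep' hC] at hz
    exact hz.1
  · obtain ⟨a, ha, e⟩ := hf z hz
    refine ⟨a, ha, ?_⟩
    unfold app
    symm
    apply the_eq (p := fun w' => E (opair a w')
      (sep (SW.prod w y) (fun t => ∃ a b : M, t = opair a b ∧ b = app f a)))
      ((key a z).2 ⟨⟨ha, hz⟩, e⟩)
    intro z' hz'
    rw [((key a z').1 hz').2, e]

theorem img_sUn {w x : M} (hac : ∃ h, ChF (pow (SW.prod w (SW.sUn x))) h) (hx : Img w x)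
    (hy : ∀ y, E y x → Img w y) : Img (SW.prod w w) (SW.sUn x) := by
  obtain ⟨f, hf⟩ := hx
  obtain ⟨h, hh⟩ := hac
  have hN : ∀ y, E y x → Cov w y (app h (sep (pow (SW.prod w (SW.sUn x)))
      (fun g => Cov w y g))) := by
    intro y hyx
    have h1 : E (app h (sep (pow (SW.prod w (SW.sUn x))) (fun g => Cov w y g)))
        (sep (pow (SW.prod w (SW.sUn x))) (fun g => Cov w y g)) := by
      refine hh _ (fun g hg => ?_) ?_
      · rw [mem_sep] at hg
        exact hg.1
      · obtain ⟨g, g1, g2⟩ := cov_ex (hy y hyx)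
        refine ⟨g, ?_⟩
        rw [mem_sep, mem_pow]
        refine ⟨fun z hz => ?_, g2⟩
        obtain ⟨a, b, ha, hb, rfl⟩ := mem_prod'.1 (g1 z hz)
        rw [mem_prod, mem_sUn]
        exact ⟨ha, y, hyx, hb⟩
    rw [mem_sep] at h1
    exact h1.2
  refine img_rel (R := fun z t => ∃ a b : M, t = opair a b ∧
    z = app (app h (sep (pow (SW.prod w (SW.sUn x))) (fun g => Cov w (app f a) g))) b)
    inferInstance ?_ ?_
  · intro z hz
    rw [mem_sUn] at hz
    obtain ⟨y, hyx, hzy⟩ := hz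
    obtain ⟨a, ha, e⟩ := hf y hyx
    obtain ⟨b, hb, e2⟩ := hN y hyx z hzy
    subst e
    exact ⟨opair a b, mem_prod.2 ⟨ha, hb⟩, a, b, rfl, e2⟩
  · rintro z z' t _ _ _ ⟨a, b, rfl, rfl⟩ ⟨a', b', h, rfl⟩
    rw [opair_inj] at h
    rw [h.1, h.2]

end

end L83

open L83

/-- SZF -/
theorem szf (hA : ALFStmt) (hH : HESStmt) (hZ : SZAStmt) : SZFStmt := by
  intro M _ _
  have hC : ACFStmt := ma_acf
  have al := hA M
  have za := hZ M
  have hprod : ∀ n (x y : M), Sz n x → Sz n y → Sz n (SW.prod x y) := by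
    rintro n x y ⟨w, hw, hx⟩ ⟨w', hw', hy⟩
    have := al.uniq n w w' hw hw'
    subst this
    exact ⟨w, hw, img_trans (hH M n w hw) (img_prod hx hy)⟩
  have hbun : ∀ n (x y : M), Sz n x → Sz n y → Sz n (SW.bun x y) := by
    rintro n x y ⟨w, hw, hx⟩ ⟨w', hw', hy⟩
    have := al.uniq n w w' hw hw'
    subst this
    exact ⟨w, hw, img_trans (hH M n w hw) (img_bun (al.om n w hw) hx hy)⟩
  have hsUn : ∀ n (x : M), Sz n x → (∀ y, E y x → Sz n y) → Sz n (SW.sUn x) := by
    rintro n x ⟨w, hw, hx⟩ hy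
    refine ⟨w, hw, img_trans (hH M n w hw) (img_sUn (hC M _) hx fun y hyx => ?_)⟩
    obtain ⟨w', hw', h⟩ := hy y hyx
    rwa [al.uniq n w w' hw hw']
  have hiUn : ∀ n (x : M) (f : M → M), Fn1 f → Sz n x → (∀ y, E y x → Sz n (f y)) →
      Sz n (SW.sUn (SW.img x f)) := by
    intro n x f hf hx hy
    refine hsUn n _ (za.img n x f hf hx) fun y hy' => ?_
    rw [mem_img' hf] at hy'
    obtain ⟨z, hz, rfl⟩ := hy'
    exact hy z hz
  refine { toSzA := za, bun := hbun, prod := hprod, sUn := hsUn, iUn := hiUn, fsub := ?_ }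
  intro k x hx
  have hcnt : ∀ n, E n om → Sz k (sep (pow x) (fun y => Cnt y n)) := by
    refine om_ind (C := fun n : M => Sz k (sep (pow x) (fun y : M => Cnt y n))) inferInstance ?_ ?_
    · refine za.sub k _ _ (za.fnt k _ (finF.ins (a := emp) finF.emp)) fun y hy => ?_
      rw [mem_sep] at hy
      obtain ⟨_, _, f, hf⟩ := hy
      rw [mem_ins, Enum_zero hf]
      exact Or.inr rfl
    · intro n hn ih
      refine sz_of_img (hprod k _ _ ih hx) (img_rel
        (R := fun y m => ∃ u b : M, m = opair u b ∧ y = ins b u) inferInstance ?_ ?_)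
      · intro y hy
        rw [mem_sep, mem_pow] at hy
        obtain ⟨hyx, _, f, hf⟩ := hy
        obtain ⟨b, hb, hfb⟩ := hf.1 n (by rw [mem_suc]; exact Or.inr rfl)
        obtain ⟨f', hf'⟩ := Enum_del hf hb
        refine ⟨opair (diff y (sing b)) b, ?_, diff y (sing b), b, rfl, (ins_diff hb).symm⟩
        rw [mem_prod, mem_sep, mem_pow]
        refine ⟨⟨fun z hz => ?_, hn, f', hf'⟩, hyx b hb⟩
        rw [mem_diff] at hz
        exact hyx z hz.1
      · rintro y y' m _ _ _ ⟨u, b, rfl, rfl⟩ ⟨u', b', h, rfl⟩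
        rw [opair_inj] at h
        rw [h.1, h.2]
  refine za.sub k (SW.sUn (SW.img om (fun n => sep (pow x) (fun y => Cnt y n)))) _
    (hiUn k om (fun n => sep (pow x) (fun y => Cnt y n)) inferInstance (za.om k)
      fun n hn => hcnt n hn) fun y hy => ?_
  rw [mem_sep] at hy
  obtain ⟨hy, n, hn⟩ := hy
  rw [mem_sUn]
  refine ⟨sep (pow x) (fun y => Cnt y n), ?_, ?_⟩
  · rw [mem_img]
    exact ⟨n, hn.1, rfl⟩
  · rw [mem_sep]
    exact ⟨hy, hn⟩

end AO
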