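import Pool.Agent.H98.AO.BStmts

/-!
Module TMF of project AO: closed sets of the template.
-/

set_option linter.unusedVariables false
set_option linter.unusedSectionVars false
set_option synthInstance.maxSize 100000

namespace AO

open SW

/-- TMF -/
theorem tmf (hA : ALFStmt) (hS : SZFStmt) (hC : CLNStmt) : TMFStmt := by
  intro M _ _ l T hT
  have sz := hS M
  have hsub : ∀ {x y : M}, Cb x → Sub y x → Cb y := fun {x y} hx h =>
    (sz.cb y).1 (sz.sub 0 x y ((sz.cb x).2 hx) h)
  refine ⟨?_, ?_, ?_⟩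
  · intro D hD d d' n hd _ _ hn _
    exact hD d n hd hn
  · intro d d' hd hd' hne
    rcases (hT.ord.mem hd).tri (hT.ord.mem hd') with h | h | h
    · refine hsub (hT.seg d' d hd' h) fun z hz => ?_
      rw [mem_inter] at hz ⊢
      exact ⟨(mem_nb.1 hz.1).1, hz.2⟩
    · exact absurd h hne
    · refine hsub (hT.seg d d' hd h) fun z hz => ?_
      rw [mem_inter] at hz ⊢
      exact ⟨(mem_nb.1 hz.2).1, hz.1⟩
  · intro n X hX hXs
    obtain ⟨D, h1, h2, h3, h4⟩ := hC M (n + 1) l X (fun d => nb T d) inferInstance hX hXs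
      (fun x hx => ⟨fun z hz => hT.ord.trans hx (mem_nb.1 hz).1,
        sz.mono 1 (n + 1) _ (by omega) (hT.sz x hx)⟩)
    exact ⟨D, h1, fun d m hd hm => h4 d hd m hm, h2, h3⟩

end AO
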