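import Pool.Agent.H98.AO.BStmts
import Pool.Agent.H93.MA.CBT
import Pool.Agent.H35.MA.ACF

/-!
Module CLT of project AO: closing off under countably many values of a function of two variables.
-/

set_option linter.unusedVariables false
set_option linter.unusedSectionVars false
set_option synthInstance.maxSize 100000

namespace AO

open SW

/-- CLT -/
theorem clt : CLTStmt := by
  intro M _ _ X c0 f hf h0 hc0 hX
  have cb : CbFacts M := ma_cbt ma_acf M
  set g : M → M := fun z => f (CC.fst z) (CC.snd z) with hgdef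
  have hg : Fn1 g := hf.comp2 (t := fun v : Fin 1 → M => CC.fst (v 0))
    (s := fun v : Fin 1 → M => CC.snd (v 0)) inferInstance inferInstance
  have hgp : ∀ a b, g (opair a b) = f a b := fun a b => by
    rw [hgdef]
    simp only [CC.fst_opair, CC.snd_opair]
  have hH : Fn1 (fun u : M => bun u (sUn (img (SW.prod u u) (fun x => g x)))) := by infer_instance
  set C : M → M := fun n => orec c0 (fun u => bun u (sUn (img (SW.prod u u) (fun x => g x)))) n
    with hCdef
  have hor : Fn1 C := by
    show Fn1 (fun n => orec c0 (fun u => bun u (sUn (img (SW.prod u u) (fun x => g x)))) n)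
    infer_instance
  have hC0 : C emp = c0 := orec_zero hH
  have hCs : ∀ n, E n om → C (suc n) = bun (C n) (sUn (img (SW.prod (C n) (C n)) (fun x => g x))) :=
    fun n hn => orec_suc hH hn
  have hstep : ∀ n, E n om → Sub (C n) X ∧ Cb (C n) := by
    refine om_ind (C := fun n : M => Sub (C n) X ∧ Cb (C n)) ?_ ?_ ?_
    · show Cl (fun n : M => Sub (C n) X ∧ Cb (C n))
      infer_instance
    · rw [hC0]
      exact ⟨h0, hc0⟩
    · intro n hn ih
      rw [hCs n hn]
      refine ⟨fun z hz => ?_, cb.bun ih.2 (cb.iUn (fun x => g x) hg (cb.prod ih.2 ih.2)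
        fun y hy => ?_)⟩
      · rw [mem_bun, mem_sUn] at hz
        rcases hz with hz | ⟨y, hy, hz⟩
        · exact ih.1 z hz
        · rw [mem_img' inferInstance] at hy
          obtain ⟨x, hx, rfl⟩ := hy
          obtain ⟨a, b, ha, hb, rfl⟩ := mem_prod'.1 hx
          rw [hgp] at hz
          exact (hX a b (ih.1 a ha) (ih.1 b hb)).1 z hz
      · obtain ⟨a, b, ha, hb, rfl⟩ := mem_prod'.1 hy
        show Cb (g (opair a b))
        rw [hgp]
        exact (hX a b (ih.1 a ha) (ih.1 b hb)).2
  have hsub : ∀ n, E n om → Sub (C n) (C (suc n)) := by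
    intro n hn z hz
    rw [hCs n hn, mem_bun]
    exact Or.inl hz
  have hmono : ∀ k, E k om → ∀ m, E m k → Sub (C m) (C k) := by
    refine om_ind (C := fun k : M => ∀ m, E m k → Sub (C m) (C k)) ?_ ?_ ?_
    · show Cl (fun k : M => ∀ m, E m k → Sub (C m) (C k))
      infer_instance
    · intro m hm
      exact absurd hm (not_mem_emp m)
    · intro k hk ih m hm
      rw [mem_suc] at hm
      rcases hm with hm | rfl
      · exact (ih m hm).trans (hsub k hk)
      · exact hsub m hk
  have hstep2 : ∀ n, E n om → ∀ x y, E x (C n) → E y (C n) → Sub (f x y) (C (suc n)) := by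
    intro n hn x y hx hy z hz
    rw [hCs n hn, mem_bun, mem_sUn]
    refine Or.inr ⟨g (opair x y), ?_, by rw [hgp]; exact hz⟩
    rw [mem_img' inferInstance]
    exact ⟨opair x y, mem_prod.2 ⟨hx, hy⟩, rfl⟩
  have hmem : ∀ x, E x (sUn (img om C)) ↔ ∃ n, E n om ∧ E x (C n) := by
    intro x
    rw [mem_sUn]
    constructor
    · rintro ⟨y, hy, hx⟩
      rw [mem_img' hor] at hy
      obtain ⟨n, hn, rfl⟩ := hy
      exact ⟨n, hn, hx⟩
    · rintro ⟨n, hn, hx⟩
      exact ⟨C n, (mem_img' hor).2 ⟨n, hn, rfl⟩, hx⟩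
  refine ⟨sUn (img om C), ?_, ?_, ?_, ?_⟩
  · intro z hz
    rw [hmem]
    exact ⟨emp, emp_mem_om, by rw [hC0]; exact hz⟩
  · intro z hz
    rw [hmem] at hz
    obtain ⟨n, hn, hz⟩ := hz
    exact (hstep n hn).1 z hz
  · exact cb.iUn C hor cb.om fun n hn => (hstep n hn).2
  · intro x y hx hy z hz
    rw [hmem] at hx hy ⊢
    obtain ⟨n, hn, hx⟩ := hx
    obtain ⟨m, hm, hy⟩ := hy
    rcases (Ord_nat hn).tri (Ord_nat hm) with h | h | h
    · exact ⟨suc m, suc_mem_om hm, hstep2 m hm x y (hmono m hm n h x hx) hy z hz⟩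
    · subst h
      exact ⟨suc n, suc_mem_om hn, hstep2 n hn x y hx hy z hz⟩
    · exact ⟨suc n, suc_mem_om hn, hstep2 n hn x y hx (hmono n hn m h y hy) z hz⟩

end AO
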